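import Pool.Agent.Work.MP_32aa60_lc.GP.B

/-!
The former hand-in `ApxHard`, as a consequence of the general-position version.
-/

namespace Pool.Agent.Work.MP_32aa60_lc.Parked.ApxHard

open Pool.Agent.Work.MP_32aa60_lc

theorem result : ∀ A : NPO, A.InAPX → ReducesToCP A := by
  intro A hA
  obtain ⟨f, g, α, h0, hf, hg, h⟩ := GP.reduces A hA
  exact ⟨f, g, α, h0, hf, hg, fun k x hk hx =>
    ⟨(h k x hk hx).1, (h k x hk hx).2.1, (h k x hk hx).2.2.2⟩⟩

end Pool.Agent.Work.MP_32aa60_lc.Parked.ApxHard
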